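import Mathlib

/-!
# Groups of units `1 + N`, `N` a nil ideal, with the normalizer condition

Let `N` be a nil ideal of a ring `R` and let `G` be a group of units of `R` that contains every unit `u` with
`u - 1 ∈ N`; the adjoint group of a nil ring is an example. If `G` satisfies the normalizer condition, then for every
normal subgroup `K` of `G` that does not contain `1 + N` there is a normal subgroup `A` of `G`, strictly larger
than `K`, such that all commutators of elements of `A` lie in `K`.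

The main step (`core`) shows that every nonzero image `M` of `N` has a nonzero element `a` with `a r a = 0` for all `r`.
Otherwise take `y ≠ 0` in `M` with `y * y = 0`. The elements `1 + y r y` form a subgroup, and starting from a suitable
element one builds commutators with elements of this subgroup that never enter it; this contradicts the normalizer
condition (`ncrit`).
-/

set_option autoImplicit false

namespace Pool.Agent.Results.MP_1f4983_al.AdjointGroups

/-- A consequence of the normalizer condition: if `T` is a nonempty set disjoint from the subgroup `H`, then some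
element `g` of `T` has no commutator with an element of `H` inside `T`. -/
theorem ncrit {G : Type*} [Group G]
    (hN : ∀ H : Subgroup G, H < ⊤ → H < Subgroup.normalizer (H : Set G))
    (H : Subgroup G) (T : Set G) (hT : T.Nonempty) (hd : ∀ g ∈ T, g ∉ H)
    (hs : ∀ g ∈ T, ∃ h ∈ H, g⁻¹ * h⁻¹ * g * h ∈ T) : False := by
  obtain ⟨K, hHK, hK⟩ := zorn_le_nonempty₀ {L : Subgroup G | H ≤ L ∧ ∀ g ∈ T, g ∉ L} (by
    intro c hc hch L hL
    refine ⟨sSup c, ⟨le_trans (hc hL).1 (le_sSup hL), ?_⟩, fun z hz => le_sSup hz⟩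
    intro g hg hgs
    obtain ⟨s, hs, hgs'⟩ := (Subgroup.mem_sSup_of_directedOn ⟨L, hL⟩ hch.directedOn).1 hgs
    exact (hc hs).2 g hg hgs') H ⟨le_rfl, hd⟩
  have hKT : ∀ g ∈ T, g ∉ K := hK.prop.2
  have hlt : K < ⊤ := by
    rw [lt_top_iff_ne_top]
    rintro rfl
    obtain ⟨g, hg⟩ := hT
    exact hKT g hg (Subgroup.mem_top g)
  have hlt2 := hN K hlt
  have hex : ∃ g ∈ T, g ∈ Subgroup.normalizer (K : Set G) := by
    by_contra hcon
    push Not at hcon
    have := hK.le_of_ge (y := Subgroup.normalizer (K : Set G)) ⟨le_trans hHK hlt2.le, hcon⟩ hlt2.le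
    exact absurd hlt2 (not_lt_of_ge this)
  obtain ⟨g, hgT, hgN⟩ := hex
  obtain ⟨h, hhH, hcT⟩ := hs g hgT
  have hhK : h ∈ K := hHK hhH
  have h1 := (Subgroup.mem_normalizer_iff.1 (inv_mem hgN)) h⁻¹
  have h2 : g⁻¹ * h⁻¹ * g⁻¹⁻¹ ∈ K := h1.1 (inv_mem hhK)
  rw [inv_inv] at h2
  exact hKT _ hcT (mul_mem h2 hhK)

/-- A nonzero nil set closed under multiplication by the ring contains a nonzero element of square zero. -/
theorem exists_sq_zero {Q : Type*} [Ring Q] (M : Set Q)
    (hl : ∀ x ∈ M, ∀ r, r * x ∈ M) (hnil : ∀ x ∈ M, IsNilpotent x) (hne : ∃ x ∈ M, x ≠ 0) :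
    ∃ y ∈ M, y ≠ 0 ∧ y * y = 0 := by
  obtain ⟨x, hxM, hx0⟩ := hne
  have hex : ∃ n, x ^ (n + 1) = 0 := by
    obtain ⟨n, hn⟩ := hnil x hxM
    exact ⟨n, by rw [pow_succ, hn, zero_mul]⟩
  classical
  obtain ⟨n, hn⟩ : ∃ n, n = Nat.find hex := ⟨_, rfl⟩
  have hspec : x ^ (n + 1) = 0 := by rw [hn]; exact Nat.find_spec hex
  have hmin : ∀ m < n, x ^ (m + 1) ≠ 0 := by
    intro m hm
    rw [hn] at hm
    exact Nat.find_min hex hm
  rcases n with _ | m
  · exact absurd (by simpa using hspec) hx0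
  · refine ⟨x ^ (m + 1), ?_, hmin m (Nat.lt_succ_self m), ?_⟩
    · rw [pow_succ]
      exact hl x hxM _
    · have : x ^ (m + 1) * x ^ (m + 1) = x ^ (m + 1 + 1) * x ^ m := by
        rw [← pow_add, ← pow_add]
        congr 1
        omega
      rw [this, hspec, zero_mul]

theorem core {G Q : Type*} [Group G] [Ring Q]
    (hN : ∀ H : Subgroup G, H < ⊤ → H < Subgroup.normalizer (H : Set G))
    (f : G →* Q) (M : Set Q)
    (hl : ∀ x ∈ M, ∀ r, r * x ∈ M) (hr : ∀ x ∈ M, ∀ r, x * r ∈ M)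
    (hnil : ∀ x ∈ M, IsNilpotent x) (hf : ∀ x ∈ M, ∃ g, f g = 1 + x)
    (hne : ∃ x ∈ M, x ≠ 0) : ∃ a ∈ M, a ≠ 0 ∧ ∀ r, a * r * a = 0 := by
  by_contra hcon
  have key : ∀ a ∈ M, a ≠ 0 → ∃ r, a * r * a ≠ 0 := by
    intro a ha ha0
    by_contra h
    push Not at h
    exact hcon ⟨a, ha, ha0, h⟩
  obtain ⟨y, hyM, hy0, hyy⟩ := exists_sq_zero M hl hnil hne
  -- an element `t` of `M` with `y t y ≠ 0`
  obtain ⟨t, htM, hyt⟩ : ∃ t ∈ M, y * t * y ≠ 0 := by
    obtain ⟨r, hr0⟩ := key y hyM hy0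
    obtain ⟨s, hs0⟩ := key (y * r * y) (hl y hyM _) hr0
    refine ⟨r * y * s * y * r, ?_, ?_⟩
    · have h1 : r * y * s * y ∈ M := hl y hyM _
      exact hr _ h1 r
    · have : y * (r * y * s * y * r) * y = y * r * y * s * (y * r * y) := by noncomm_ring
      rw [this]; exact hs0
  -- the largest power of `t` with this property
  obtain ⟨w, hwM, hw0, hwn⟩ : ∃ w ∈ M, y * w * y ≠ 0 ∧ ∀ n, y * w ^ (n + 2) * y = 0 := by
    have hex : ∃ k, ∀ i, k ≤ i → y * t ^ i * y = 0 := by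
      obtain ⟨n, hn⟩ := hnil t htM
      refine ⟨n, fun i hi => ?_⟩
      obtain ⟨d, rfl⟩ := Nat.exists_eq_add_of_le hi
      rw [pow_add, hn]
      simp
    classical
    obtain ⟨k, hk⟩ : ∃ k, k = Nat.find hex := ⟨_, rfl⟩
    have hspec : ∀ i, k ≤ i → y * t ^ i * y = 0 := by rw [hk]; exact Nat.find_spec hex
    have hmin : ∀ m < k, ¬ ∀ i, m ≤ i → y * t ^ i * y = 0 := by
      intro m hm
      rw [hk] at hm
      exact Nat.find_min hex hm
    have hk2 : 2 ≤ k := by
      by_contra hlt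
      have : y * t ^ 1 * y = 0 := hspec 1 (by omega)
      rw [pow_one] at this
      exact hyt this
    obtain ⟨j, rfl⟩ : ∃ j, k = j + 2 := ⟨k - 2, by omega⟩
    have hj : y * t ^ (j + 1) * y ≠ 0 := by
      intro h0
      apply hmin (j + 1) (by omega)
      intro i hi
      rcases Nat.lt_or_ge i (j + 2) with h | h
      · have : i = j + 1 := by omega
        rw [this]; exact h0
      · exact hspec i h
    refine ⟨t ^ (j + 1), ?_, hj, ?_⟩
    · rw [pow_succ]; exact hl t htM _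
    · intro n
      rw [← pow_mul]
      apply hspec
      nlinarith [Nat.zero_le (j * n), Nat.zero_le n, Nat.zero_le j]
  -- the starting element
  obtain ⟨c, hc⟩ := hf w hwM
  have hinv : ∀ g : G, f g⁻¹ * f g = 1 := by
    intro g
    rw [← map_mul, inv_mul_cancel, map_one]
  have hinv' : ∀ g : G, f g * f g⁻¹ = 1 := by
    intro g
    rw [← map_mul, mul_inv_cancel, map_one]
  have hcinv : y * f c⁻¹ * y = - (y * f c * y) := by
    have h1 : f c⁻¹ = 1 - f c⁻¹ * w := by
      have := hinv c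
      rw [hc, mul_add, mul_one] at this
      exact eq_sub_of_add_eq this
    have h2 : ∀ n, y * (f c⁻¹ * w ^ (n + 1)) * y = y * w ^ (n + 1) * y - y * (f c⁻¹ * w ^ (n + 2)) * y := by
      intro n
      have : f c⁻¹ * w ^ (n + 1) = w ^ (n + 1) - f c⁻¹ * w ^ (n + 2) := by
        conv_lhs => rw [h1]
        rw [sub_mul, one_mul, mul_assoc, ← pow_succ']
      rw [this]
      noncomm_ring
    have h3 : ∀ n, y * (f c⁻¹ * w ^ (n + 2)) * y = 0 := by
      obtain ⟨m, hm⟩ := hnil w hwM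
      have h4 : ∀ d n, m ≤ n + d → y * (f c⁻¹ * w ^ (n + 2)) * y = 0 := by
        intro d
        induction d with
        | zero =>
          intro n hn
          have : w ^ (n + 2) = 0 := by
            obtain ⟨e, he⟩ : ∃ e, n + 2 = m + e := ⟨n + 2 - m, by omega⟩
            rw [he, pow_add, hm, zero_mul]
          rw [this]; simp
        | succ d ih =>
          intro n hn
          have := h2 (n + 1)
          rw [show n + 1 + 1 = n + 2 by ring, show n + 1 + 2 = (n + 1) + 2 by ring] at this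
          rw [this, hwn n, ih (n + 1) (by omega), sub_zero]
      intro n
      exact h4 m n (by omega)
    have h5 : y * (f c⁻¹ * w) * y = y * w * y := by
      have := h2 0
      rw [zero_add, pow_one, h3 0, sub_zero] at this
      exact this
    have h6 : y * f c⁻¹ * y = y * y - y * (f c⁻¹ * w) * y := by
      conv_lhs => rw [h1]
      noncomm_ring
    rw [h6, hyy, h5, hc, zero_sub]
    have : y * (1 + w) * y = y * y + y * w * y := by noncomm_ring
    rw [this, hyy, zero_add]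
  have hc0 : y * f c * y ≠ 0 := by
    have : y * (1 + w) * y = y * y + y * w * y := by noncomm_ring
    rw [hc, this, hyy, zero_add]
    exact hw0
  -- the subgroup `1 + y r y`
  let H : Subgroup G :=
    { carrier := {g | ∃ r, f g = 1 + y * r * y}
      mul_mem' := by
        rintro a b ⟨r, hr⟩ ⟨s, hs⟩
        refine ⟨r + s, ?_⟩
        rw [map_mul, hr, hs]
        have : (1 + y * r * y) * (1 + y * s * y) = 1 + y * (r + s) * y + y * r * (y * y) * s * y := by
          noncomm_ring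
        rw [this, hyy]
        simp
      one_mem' := ⟨0, by simp⟩
      inv_mem' := by
        rintro a ⟨r, hr⟩
        refine ⟨-r, ?_⟩
        have h1 : (1 + y * r * y) * (1 + y * (-r) * y) = 1 - y * r * (y * y) * r * y := by
          noncomm_ring
        rw [hyy] at h1
        calc f a⁻¹ = f a⁻¹ * ((1 + y * r * y) * (1 + y * (-r) * y)) := by rw [h1]; simp
          _ = f a⁻¹ * f a * (1 + y * (-r) * y) := by rw [hr]; exact (mul_assoc _ _ _).symm
          _ = 1 + y * (-r) * y := by rw [hinv, one_mul] }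
  refine ncrit hN H {g | y * f g * y ≠ 0 ∧ y * f g⁻¹ * y = - (y * f g * y)} ⟨c, hc0, hcinv⟩ ?_ ?_
  · rintro g ⟨hg0, -⟩ ⟨r, hr⟩
    apply hg0
    have : y * (1 + y * r * y) * y = y * y + (y * y) * r * (y * y) := by noncomm_ring
    rw [hr, this, hyy]
    simp
  · rintro g ⟨hg0, hgi⟩
    obtain ⟨r, hr0⟩ := key (y * f g * y) (hl y hyM _) hg0
    obtain ⟨h, hh⟩ := hf (y * r * y) (hl y hyM _)
    have hhH : h ∈ H := ⟨r, hh⟩
    have hhi : f h⁻¹ = 1 - y * r * y := by
      have h1 : (1 + y * r * y) * (1 - y * r * y) = 1 - y * r * (y * y) * r * y := by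
        noncomm_ring
      rw [hyy] at h1
      calc f h⁻¹ = f h⁻¹ * ((1 + y * r * y) * (1 - y * r * y)) := by rw [h1]; simp
        _ = f h⁻¹ * f h * (1 - y * r * y) := by rw [hh]; exact (mul_assoc _ _ _).symm
        _ = 1 - y * r * y := by rw [hinv, one_mul]
    refine ⟨h, hhH, ?_⟩
    have e1 : y * f (g⁻¹ * h⁻¹ * g * h) * y = y * f g * y * r * (y * f g * y) := by
      rw [map_mul, map_mul, map_mul, hh, hhi]
      have a1 : y * (f g⁻¹ * (1 - y * r * y) * f g * (1 + y * r * y)) * y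
          = y * (f g⁻¹ * f g) * y - (y * f g⁻¹ * y) * r * (y * f g * y)
            + y * (f g⁻¹ * (1 - y * r * y) * f g) * y * r * (y * y) := by noncomm_ring
      rw [a1, hinv, hyy, hgi, mul_one, hyy]
      simp
    have e2 : y * f (g⁻¹ * h⁻¹ * g * h)⁻¹ * y = - (y * f g * y * r * (y * f g * y)) := by
      have : (g⁻¹ * h⁻¹ * g * h)⁻¹ = h⁻¹ * g⁻¹ * h * g := by group
      rw [this, map_mul, map_mul, map_mul, hh, hhi]
      have a1 : y * ((1 - y * r * y) * f g⁻¹ * (1 + y * r * y) * f g) * y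
          = y * (f g⁻¹ * f g) * y + (y * f g⁻¹ * y) * r * (y * f g * y)
            - (y * y) * r * y * (f g⁻¹ * (1 + y * r * y) * f g) * y := by noncomm_ring
      rw [a1, hinv, hyy, hgi, mul_one, hyy]
      simp
    exact ⟨by rw [e1]; exact hr0, by rw [e1, e2]⟩

/-- The ideal step: if the nil ideal `N` is not contained in the ideal `I`, then there is an ideal `J > I` with
`J * J ⊆ I`. -/
theorem exists_ideal {G R : Type*} [Group G] [Ring R]
    (hN : ∀ H : Subgroup G, H < ⊤ → H < Subgroup.normalizer (H : Set G))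
    (f : G →* R) (N : TwoSidedIdeal R) (hnil : ∀ x ∈ N, IsNilpotent x)
    (hf : ∀ x ∈ N, ∃ g, f g = 1 + x) (I : TwoSidedIdeal R) (hNI : ¬ N ≤ I) :
    ∃ J : TwoSidedIdeal R, I < J ∧ ∀ x ∈ J, ∀ y ∈ J, x * y ∈ I := by
  obtain ⟨x₀, hx₀N, hx₀I⟩ : ∃ x ∈ N, x ∉ I := by
    by_contra hcon
    push Not at hcon
    exact hNI hcon
  let π : R →+* I.ringCon.Quotient := RingCon.mk' I.ringCon
  have hπ : ∀ x, π x = 0 ↔ x ∈ I := by
    intro x
    have : π x = π 0 ↔ I.ringCon x 0 := RingCon.eq I.ringCon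
    rw [map_zero] at this
    rw [this, I.rel_iff, sub_zero]
  have hsurj : Function.Surjective π := RingCon.mk'_surjective I.ringCon
  obtain ⟨b, ⟨a, haN, rfl⟩, ha0, har⟩ := core hN ((π : R →* I.ringCon.Quotient).comp f) {z | ∃ x ∈ N, π x = z}
    (by
      rintro _ ⟨x, hx, rfl⟩ r
      obtain ⟨s, rfl⟩ := hsurj r
      exact ⟨s * x, N.mul_mem_left _ _ hx, by rw [map_mul]⟩)
    (by
      rintro _ ⟨x, hx, rfl⟩ r
      obtain ⟨s, rfl⟩ := hsurj r
      exact ⟨x * s, N.mul_mem_right _ _ hx, by rw [map_mul]⟩)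
    (by
      rintro _ ⟨x, hx, rfl⟩
      exact (hnil x hx).map π)
    (by
      rintro _ ⟨x, hx, rfl⟩
      obtain ⟨g, hg⟩ := hf x hx
      exact ⟨g, by simp [hg]⟩)
    ⟨π x₀, ⟨x₀, hx₀N, rfl⟩, fun h => hx₀I ((hπ x₀).1 h)⟩
  have haI : a ∉ I := fun h => ha0 ((hπ a).2 h)
  have haRa : ∀ r, a * r * a ∈ I := by
    intro r
    rw [← hπ, map_mul, map_mul]
    exact har (π r)
  let J : TwoSidedIdeal R := TwoSidedIdeal.span (insert a (I : Set R))
  have haJ : a ∈ J := TwoSidedIdeal.subset_span (Set.mem_insert _ _)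
  have hIJ : I ≤ J := fun x hx => TwoSidedIdeal.subset_span (Set.mem_insert_of_mem _ hx)
  -- the two auxiliary ideals
  let J1 : TwoSidedIdeal R := TwoSidedIdeal.mk' {x | ∀ s, x * s * a ∈ I}
    (by intro s; rw [zero_mul, zero_mul]; exact I.zero_mem)
    (by
      intro x y hx hy s
      rw [add_mul, add_mul]
      exact I.add_mem (hx s) (hy s))
    (by
      intro x hx s
      rw [neg_mul, neg_mul]
      exact I.neg_mem (hx s))
    (by
      intro x y hy s
      have : x * y * s * a = x * (y * s * a) := by noncomm_ring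
      rw [this]
      exact I.mul_mem_left _ _ (hy s))
    (by
      intro x y hx s
      have : x * y * s * a = x * (y * s) * a := by noncomm_ring
      rw [this]
      exact hx _)
  have hJ1 : ∀ x ∈ J, ∀ s, x * s * a ∈ I := by
    intro x hx
    have : x ∈ J1 := by
      refine (TwoSidedIdeal.mem_span_iff.1 hx) J1 ?_
      intro z hz
      rcases hz with rfl | hz
      · exact (TwoSidedIdeal.mem_mk' _ _ _ _ _ _ _).2 haRa
      · exact (TwoSidedIdeal.mem_mk' _ _ _ _ _ _ _).2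
          (fun s => I.mul_mem_right _ _ (I.mul_mem_right _ _ hz))
    exact (TwoSidedIdeal.mem_mk' _ _ _ _ _ _ _).1 this
  let J2 : TwoSidedIdeal R := TwoSidedIdeal.mk' {z | ∀ x ∈ J, ∀ s, x * s * z ∈ I}
    (by intro x _ s; rw [mul_zero]; exact I.zero_mem)
    (by
      intro z w hz hw x hx s
      rw [mul_add]
      exact I.add_mem (hz x hx s) (hw x hx s))
    (by
      intro z hz x hx s
      rw [mul_neg]
      exact I.neg_mem (hz x hx s))
    (by
      intro r z hz x hx s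
      have : x * s * (r * z) = x * (s * r) * z := by noncomm_ring
      rw [this]
      exact hz x hx _)
    (by
      intro z r hz x hx s
      have : x * s * (z * r) = x * s * z * r := by noncomm_ring
      rw [this]
      exact I.mul_mem_right _ _ (hz x hx s))
  have hJ2 : ∀ z ∈ J, ∀ x ∈ J, ∀ s, x * s * z ∈ I := by
    intro z hz
    have : z ∈ J2 := by
      refine (TwoSidedIdeal.mem_span_iff.1 hz) J2 ?_
      intro u hu
      rcases hu with rfl | hu
      · exact (TwoSidedIdeal.mem_mk' _ _ _ _ _ _ _).2 hJ1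
      · exact (TwoSidedIdeal.mem_mk' _ _ _ _ _ _ _).2 (fun x _ s => I.mul_mem_left _ _ hu)
    exact (TwoSidedIdeal.mem_mk' _ _ _ _ _ _ _).1 this
  refine ⟨J, lt_of_le_of_ne hIJ ?_, ?_⟩
  · intro h
    rw [h] at haI
    exact haI haJ
  · intro x hx y hy
    have := hJ2 y hy x hx 1
    rwa [mul_one] at this

/-- The subgroup of the `g ∈ G` with `g - 1 ∈ I`. -/
def sub {R : Type*} [Ring R] (G : Subgroup Rˣ) (I : TwoSidedIdeal R) : Subgroup G where
  carrier := {g | ((g : Rˣ) : R) - 1 ∈ I}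
  one_mem' := by
    show (((1 : G) : Rˣ) : R) - 1 ∈ I
    simp [I.zero_mem]
  mul_mem' := by
    intro a b ha hb
    show (((a * b : G) : Rˣ) : R) - 1 ∈ I
    have : (((a * b : G) : Rˣ) : R) - 1 = ((a : Rˣ) : R) * (((b : Rˣ) : R) - 1) + (((a : Rˣ) : R) - 1) := by
      push_cast
      noncomm_ring
    rw [this]
    exact I.add_mem (I.mul_mem_left _ _ hb) ha
  inv_mem' := by
    intro a ha
    show (((a⁻¹ : G) : Rˣ) : R) - 1 ∈ I
    have : (((a⁻¹ : G) : Rˣ) : R) - 1 = - ((((a⁻¹ : G) : Rˣ) : R) * (((a : Rˣ) : R) - 1)) := by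
      rw [mul_sub, mul_one, ← Units.val_mul, ← Subgroup.coe_mul, inv_mul_cancel]
      simp
    rw [this]
    exact I.neg_mem (I.mul_mem_left _ _ ha)

theorem mem_sub {R : Type*} [Ring R] (G : Subgroup Rˣ) (I : TwoSidedIdeal R) (g : G) :
    g ∈ sub G I ↔ ((g : Rˣ) : R) - 1 ∈ I := Iff.rfl

theorem sub_normal {R : Type*} [Ring R] (G : Subgroup Rˣ) (I : TwoSidedIdeal R) : (sub G I).Normal := by
  constructor
  intro n hn g
  rw [mem_sub] at hn ⊢
  have : (((g * n * g⁻¹ : G) : Rˣ) : R) - 1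
      = ((g : Rˣ) : R) * (((n : Rˣ) : R) - 1) * (((g⁻¹ : G) : Rˣ) : R) := by
    have h1 : ((g : Rˣ) : R) * (((g⁻¹ : G) : Rˣ) : R) = 1 := by
      rw [← Units.val_mul, ← Subgroup.coe_mul, mul_inv_cancel]
      simp
    rw [mul_sub, sub_mul, mul_one, h1]
    push_cast
    rfl
  rw [this]
  exact I.mul_mem_right _ _ (I.mul_mem_left _ _ hn)

/-- If `J * J ⊆ I`, then commutators of elements of `1 + J` lie in `1 + I`. -/
theorem comm_sub {R : Type*} [Ring R] (G : Subgroup Rˣ) (I J : TwoSidedIdeal R)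
    (hJ : ∀ x ∈ J, ∀ y ∈ J, x * y ∈ I) (a b : G) (ha : a ∈ sub G J) (hb : b ∈ sub G J) :
    a * b * a⁻¹ * b⁻¹ ∈ sub G I := by
  rw [mem_sub] at ha hb ⊢
  have e1 : (((a * b * a⁻¹ * b⁻¹ : G) : Rˣ) : R) * (((b * a : G) : Rˣ) : R) = (((a * b : G) : Rˣ) : R) := by
    rw [← Units.val_mul, ← Subgroup.coe_mul]
    congr 2
    group
  have e3 : (((b * a : G) : Rˣ) : R) * ((((b * a)⁻¹ : G) : Rˣ) : R) = 1 := by
    rw [← Units.val_mul, ← Subgroup.coe_mul, mul_inv_cancel]
    simp
  have e2 : (((a * b * a⁻¹ * b⁻¹ : G) : Rˣ) : R) - 1 =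
      ((((a : Rˣ) : R) - 1) * (((b : Rˣ) : R) - 1) - (((b : Rˣ) : R) - 1) * (((a : Rˣ) : R) - 1))
        * ((((b * a)⁻¹ : G) : Rˣ) : R) := by
    have e4 : (((a : Rˣ) : R) - 1) * (((b : Rˣ) : R) - 1) - (((b : Rˣ) : R) - 1) * (((a : Rˣ) : R) - 1)
        = (((a * b : G) : Rˣ) : R) - (((b * a : G) : Rˣ) : R) := by
      push_cast
      noncomm_ring
    rw [e4, ← e1, ← sub_one_mul, mul_assoc (_ - _), e3, mul_one]
  rw [e2]
  exact I.mul_mem_right _ _ (I.sub_mem (hJ _ ha _ hb) (hJ _ hb _ ha))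

/-- Let `N` be a nil ideal of the ring `R`, and `G` a group of units of `R` that contains all units `u` with
`u - 1 ∈ N`. If `G` satisfies the normalizer condition, then every normal subgroup `K` of `G` that does not contain
all of these units is properly contained in a normal subgroup `A` of `G` with `A / K` abelian. -/
theorem result {R : Type*} [Ring R] (N : TwoSidedIdeal R) (hnil : ∀ x ∈ N, IsNilpotent x)
    (G : Subgroup Rˣ) (hG : ∀ u : Rˣ, (u : R) - 1 ∈ N → u ∈ G)
    (hcond : ∀ H : Subgroup G, H < ⊤ → H < Subgroup.normalizer (H : Set G))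
    (K : Subgroup G) (hK : K.Normal) (hNK : ∃ g : G, ((g : Rˣ) : R) - 1 ∈ N ∧ g ∉ K) :
    ∃ A : Subgroup G, A.Normal ∧ K < A ∧ ∀ x ∈ A, ∀ y ∈ A, x * y * x⁻¹ * y⁻¹ ∈ K := by
  -- a maximal ideal `I` with `1 + I ≤ K`
  obtain ⟨m, -, hm⟩ := zorn_subset_nonempty
    {s : Set R | (∃ I : TwoSidedIdeal R, (I : Set R) = s) ∧ ∀ g : G, ((g : Rˣ) : R) - 1 ∈ s → g ∈ K}
    (by
      intro c hc hch hne
      refine ⟨⋃₀ c, ⟨?_, ?_⟩, fun s hs => Set.subset_sUnion_of_mem hs⟩
      · refine ⟨TwoSidedIdeal.mk' (⋃₀ c) ?_ ?_ ?_ ?_ ?_, ?_⟩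
        · obtain ⟨s, hs⟩ := hne
          obtain ⟨⟨I, rfl⟩, -⟩ := hc hs
          exact ⟨_, hs, I.zero_mem⟩
        · rintro x y ⟨s, hs, hx⟩ ⟨t, ht, hy⟩
          rcases hch.total hs ht with h | h
          · obtain ⟨⟨I, rfl⟩, -⟩ := hc ht
            exact ⟨_, ht, I.add_mem (h hx) hy⟩
          · obtain ⟨⟨I, rfl⟩, -⟩ := hc hs
            exact ⟨_, hs, I.add_mem hx (h hy)⟩
        · rintro x ⟨s, hs, hx⟩
          obtain ⟨⟨I, rfl⟩, -⟩ := hc hs
          exact ⟨_, hs, I.neg_mem hx⟩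
        · rintro x y ⟨s, hs, hy⟩
          obtain ⟨⟨I, rfl⟩, -⟩ := hc hs
          exact ⟨_, hs, I.mul_mem_left _ _ hy⟩
        · rintro x y ⟨s, hs, hx⟩
          obtain ⟨⟨I, rfl⟩, -⟩ := hc hs
          exact ⟨_, hs, I.mul_mem_right _ _ hx⟩
        · ext x
          exact TwoSidedIdeal.mem_mk' _ _ _ _ _ _ _
      · rintro g ⟨s, hs, hg⟩
        exact (hc hs).2 g hg)
    ((⊥ : TwoSidedIdeal R) : Set R)
    ⟨⟨⊥, rfl⟩, by
      intro g hg
      have h0 : ((g : Rˣ) : R) - 1 = 0 := by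
        simpa using hg
      have h1 : g = 1 := by
        apply Subtype.ext
        apply Units.ext
        rw [sub_eq_zero.1 h0]
        simp
      rw [h1]
      exact K.one_mem⟩
  obtain ⟨⟨I, rfl⟩, hIK⟩ := hm.prop
  have hNI : ¬ N ≤ I := by
    intro h
    obtain ⟨g, hgN, hgK⟩ := hNK
    exact hgK (hIK g (h hgN))
  -- the homomorphism into the ring
  let f : G →* R := (Units.coeHom R).comp G.subtype
  have hf : ∀ x ∈ N, ∃ g, f g = 1 + x := by
    intro x hx
    obtain ⟨u, hu⟩ := (hnil x hx).isUnit_one_add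
    have huG : u ∈ G := by
      apply hG
      rw [hu, add_sub_cancel_left]
      exact hx
    exact ⟨⟨u, huG⟩, hu⟩
  obtain ⟨J, hIJ, hJJ⟩ := exists_ideal hcond f N hnil hf I hNI
  have hJK : ∃ g : G, ((g : Rˣ) : R) - 1 ∈ J ∧ g ∉ K := by
    by_contra hcon
    push Not at hcon
    have := hm.le_of_ge (y := (J : Set R)) ⟨⟨J, rfl⟩, hcon⟩ hIJ.le
    exact absurd hIJ (not_lt_of_ge this)
  obtain ⟨g, hgJ, hgK⟩ := hJK
  have := hK
  have := sub_normal G J
  refine ⟨K ⊔ sub G J, Subgroup.sup_normal _ _, lt_of_le_of_ne le_sup_left ?_, ?_⟩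
  · intro h
    apply hgK
    rw [h]
    exact Subgroup.mem_sup_right hgJ
  · intro x hx y hy
    have hq : ∀ z ∈ K ⊔ sub G J, ∃ a ∈ sub G J, (QuotientGroup.mk z : G ⧸ K) = QuotientGroup.mk a := by
      intro z hz
      obtain ⟨k, hk, a, ha, rfl⟩ := Subgroup.mem_sup_of_normal_right.1 hz
      refine ⟨a, ha, ?_⟩
      rw [QuotientGroup.mk_mul, (QuotientGroup.eq_one_iff k).2 hk, one_mul]
    obtain ⟨a, ha, hxa⟩ := hq x hx
    obtain ⟨b, hb, hyb⟩ := hq y hy
    have h1 : a * b * a⁻¹ * b⁻¹ ∈ K := hIK _ (comm_sub G I J hJJ a b ha hb)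
    rw [← QuotientGroup.eq_one_iff] at h1 ⊢
    rw [QuotientGroup.mk_mul, QuotientGroup.mk_mul, QuotientGroup.mk_mul,
      QuotientGroup.mk_inv, QuotientGroup.mk_inv] at h1 ⊢
    rw [hxa, hyb]
    exact h1

end Pool.Agent.Results.MP_1f4983_al.AdjointGroups
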