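import Mathlib

/-!
# Abelian normal subgroups of a normal subgroup, and the normalizer condition

Let `G` satisfy the normalizer condition, let `K` be a normal subgroup of `G`, let `A ≠ 1` be an abelian normal
subgroup of `K` and let `T` be a subgroup with `K T = G` whose intersection with the normal closure of `A` in `G` is
finitely generated. Then `G` has a nontrivial abelian normal subgroup.

Proof. Let `B` be the normal closure of `A`. If `T ∩ B = 1`, the normalizer condition gives `b ≠ 1` in `B`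
which commutes with `T` (`exists_centralised`). So in all cases there is a finite set, or a finitely generated subgroup,
`D ≠ 1` in `B` which is normalised by `T`. It is contained in the product `P` of finitely many conjugates of `A`; these are
normalised by `K`. So the normal closure `N` of `D` in `G` is contained in `P`, and the centre of `N` is not
trivial (`exists_central`).
-/

set_option autoImplicit false

namespace Pool.Agent.Results.MP_1f4983_al.Closure

/-- A consequence of the normalizer condition: if `T` is a nonempty set disjoint from the subgroup `H`, then some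
element `g` of `T` has no commutator with an element of `H` inside `T`. -/
theorem ncrit {G : Type*} [Group G]
    (hN : ∀ H : Subgroup G, H < ⊤ → H < Subgroup.normalizer (H : Set G))
    (H : Subgroup G) (T : Set G) (hT : T.Nonempty) (hd : ∀ g ∈ T, g ∉ H)
    (hs : ∀ g ∈ T, ∃ h ∈ H, g⁻¹ * h⁻¹ * g * h ∈ T) : False := by
  obtain ⟨K, hHK, hK⟩ := zorn_le_nonempty₀ {L : Subgroup G | H ≤ L ∧ ∀ g ∈ T, g ∉ L} (by
    intro c hc hch L hL
    refine ⟨sSup c, ⟨le_trans (hc hL).1 (le_sSup hL), ?_⟩, fun z hz => le_sSup hz⟩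
    intro g hg hgs
    obtain ⟨s, hs, hgs'⟩ := (Subgroup.mem_sSup_of_directedOn ⟨L, hL⟩ hch.directedOn).1 hgs
    exact (hc hs).2 g hg hgs') H ⟨le_rfl, hd⟩
  have hKT : ∀ g ∈ T, g ∉ K := hK.prop.2
  have hlt : K < ⊤ := by
    rw [lt_top_iff_ne_top]
    rintro rfl
    obtain ⟨g, hg⟩ := hT
    exact hKT g hg (Subgroup.mem_top g)
  have hlt2 := hN K hlt
  have hex : ∃ g ∈ T, g ∈ Subgroup.normalizer (K : Set G) := by
    by_contra hcon
    push Not at hcon
    have := hK.le_of_ge (y := Subgroup.normalizer (K : Set G)) ⟨le_trans hHK hlt2.le, hcon⟩ hlt2.le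
    exact absurd hlt2 (not_lt_of_ge this)
  obtain ⟨g, hgT, hgN⟩ := hex
  obtain ⟨h, hhH, hcT⟩ := hs g hgT
  have hhK : h ∈ K := hHK hhH
  have h1 := (Subgroup.mem_normalizer_iff.1 (inv_mem hgN)) h⁻¹
  have h2 : g⁻¹ * h⁻¹ * g⁻¹⁻¹ ∈ K := h1.1 (inv_mem hhK)
  rw [inv_inv] at h2
  exact hKT _ hcT (mul_mem h2 hhK)

/-- If `B ≠ 1` is normal and `T ∩ B = 1`, some `b ≠ 1` of `B` commutes with `T`. -/
theorem exists_centralised {G : Type*} [Group G]
    (hN : ∀ H : Subgroup G, H < ⊤ → H < Subgroup.normalizer (H : Set G))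
    (B T : Subgroup G) (hB : B.Normal) (hB1 : B ≠ ⊥) (hTB : T ⊓ B = ⊥) :
    ∃ b ∈ B, b ≠ 1 ∧ ∀ t ∈ T, t * b * t⁻¹ = b := by
  by_contra hcon
  push Not at hcon
  obtain ⟨b₀, hb₀⟩ := Subgroup.ne_bot_iff_exists_ne_one.1 hB1
  refine ncrit hN T {x | x ∈ B ∧ x ≠ 1} ⟨(b₀ : G), b₀.2, fun h => hb₀ (Subtype.ext h)⟩ ?_ ?_
  · rintro x ⟨hxB, hx1⟩ hxT
    have : x ∈ T ⊓ B := ⟨hxT, hxB⟩
    rw [hTB] at this
    exact hx1 (Subgroup.mem_bot.1 this)
  · rintro x ⟨hxB, hx1⟩
    obtain ⟨t, htT, ht⟩ := hcon x hxB hx1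
    refine ⟨t⁻¹, T.inv_mem htT, ?_, ?_⟩
    · have h1 : t * x * t⁻¹ ∈ B := hB.conj_mem x hxB t
      have h2 : x⁻¹ * t⁻¹⁻¹ * x * t⁻¹ = x⁻¹ * (t * x * t⁻¹) := by group
      rw [h2]
      exact B.mul_mem (B.inv_mem hxB) h1
    · intro h
      apply ht
      have h2 : x⁻¹ * t⁻¹⁻¹ * x * t⁻¹ = x⁻¹ * (t * x * t⁻¹) := by group
      rw [h2] at h
      exact (inv_mul_eq_one.1 h).symm

variable {G : Type*} [Group G]

/-- the product of the conjugates `g A g⁻¹`, `g ∈ F` -/
def Pf (A : Subgroup G) (F : Finset G) : Subgroup G :=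
  Subgroup.closure {x | ∃ g ∈ F, ∃ a ∈ A, x = g * a * g⁻¹}

theorem Pf_mono (A : Subgroup G) {F F' : Finset G} (h : F ⊆ F') : Pf A F ≤ Pf A F' := by
  apply Subgroup.closure_mono
  rintro x ⟨g, hg, a, ha, rfl⟩
  exact ⟨g, h hg, a, ha, rfl⟩

theorem mem_Pf_of_mem_normalClosure (A : Subgroup G) {x : G}
    (hx : x ∈ Subgroup.normalClosure (A : Set G)) : ∃ F : Finset G, x ∈ Pf A F := by
  classical
  unfold Subgroup.normalClosure at hx
  induction hx using Subgroup.closure_induction with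
  | mem x hx =>
    obtain ⟨a, ha, hax⟩ := Group.mem_conjugatesOfSet_iff.1 hx
    obtain ⟨g, hg⟩ := isConj_iff.1 hax
    exact ⟨{g}, Subgroup.subset_closure ⟨g, Finset.mem_singleton_self g, a, ha, hg.symm⟩⟩
  | one => exact ⟨∅, Subgroup.one_mem _⟩
  | mul x y _ _ ihx ihy =>
    obtain ⟨F, hF⟩ := ihx
    obtain ⟨F', hF'⟩ := ihy
    exact ⟨F ∪ F', Subgroup.mul_mem _ (Pf_mono A Finset.subset_union_left hF)
      (Pf_mono A Finset.subset_union_right hF')⟩
  | inv x _ ih =>
    obtain ⟨F, hF⟩ := ih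
    exact ⟨F, Subgroup.inv_mem _ hF⟩

/-- finite sets -/
theorem subset_Pf (A : Subgroup G) (S : Finset G)
    (hS : ∀ x ∈ S, x ∈ Subgroup.normalClosure (A : Set G)) : ∃ F : Finset G, ∀ x ∈ S, x ∈ Pf A F := by
  classical
  induction S using Finset.induction_on with
  | empty => exact ⟨∅, fun x hx => absurd hx (Finset.notMem_empty x)⟩
  | insert a S _ ih =>
    obtain ⟨F, hF⟩ := ih fun x hx => hS x (Finset.mem_insert_of_mem hx)
    obtain ⟨F', hF'⟩ := mem_Pf_of_mem_normalClosure A (hS a (Finset.mem_insert_self a S))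
    refine ⟨F ∪ F', fun x hx => ?_⟩
    rcases Finset.mem_insert.1 hx with rfl | hx
    · exact Pf_mono A Finset.subset_union_right hF'
    · exact Pf_mono A Finset.subset_union_left (hF x hx)

section

variable {K A : Subgroup G} (hK : K.Normal) (hAK : A ≤ K)
  (hnorm : ∀ k ∈ K, ∀ a ∈ A, k * a * k⁻¹ ∈ A)

include hK hAK in
theorem conj_mem_K {g a : G} (ha : a ∈ A) : g * a * g⁻¹ ∈ K := hK.conj_mem a (hAK ha) g

include hK hAK in
theorem Pf_le (F : Finset G) : Pf A F ≤ K := by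
  apply (Subgroup.closure_le _).2
  rintro x ⟨g, _, a, ha, rfl⟩
  exact conj_mem_K hK hAK ha

include hK hnorm in
/-- conjugates of elements of `g A g⁻¹` by elements of `K` -/
theorem conj_conj {k g a : G} (hk : k ∈ K) (ha : a ∈ A) :
    ∃ a' ∈ A, k * (g * a * g⁻¹) * k⁻¹ = g * a' * g⁻¹ := by
  refine ⟨(g⁻¹ * k * g) * a * (g⁻¹ * k * g)⁻¹, hnorm _ ?_ a ha, by group⟩
  have := hK.conj_mem k hk g⁻¹
  rwa [inv_inv] at this

include hK hnorm in
theorem Pf_normal (F : Finset G) {k x : G} (hk : k ∈ K) (hx : x ∈ Pf A F) : k * x * k⁻¹ ∈ Pf A F := by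
  unfold Pf at hx ⊢
  induction hx using Subgroup.closure_induction with
  | mem x hx =>
    obtain ⟨g, hg, a, ha, rfl⟩ := hx
    obtain ⟨a', ha', h⟩ := conj_conj hK hnorm (g := g) hk ha
    rw [h]
    exact Subgroup.subset_closure ⟨g, hg, a', ha', rfl⟩
  | one =>
    rw [mul_one, mul_inv_cancel]
    exact Subgroup.one_mem _
  | mul x y _ _ ihx ihy =>
    have : k * (x * y) * k⁻¹ = (k * x * k⁻¹) * (k * y * k⁻¹) := by group
    rw [this]
    exact Subgroup.mul_mem _ ihx ihy
  | inv x _ ih =>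
    have : k * x⁻¹ * k⁻¹ = (k * x * k⁻¹)⁻¹ := by group
    rw [this]
    exact Subgroup.inv_mem _ ih

include hK hAK hnorm in
/-- A nontrivial subgroup of `K` normalised by `K` contains a nontrivial subgroup, normalised by `K`, which commutes
with finitely many given conjugates of `A`. -/
theorem exists_central (habel : ∀ x ∈ A, ∀ y ∈ A, x * y = y * x) (F : Finset G) (N : Subgroup G)
    (hNK : N ≤ K) (hN1 : N ≠ ⊥) (hNn : ∀ k ∈ K, ∀ x ∈ N, k * x * k⁻¹ ∈ N) :
    ∃ M : Subgroup G, M ≤ N ∧ M ≠ ⊥ ∧ (∀ k ∈ K, ∀ x ∈ M, k * x * k⁻¹ ∈ M) ∧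
      ∀ x ∈ M, ∀ g ∈ F, ∀ a ∈ A, x * (g * a * g⁻¹) = g * a * g⁻¹ * x := by
  classical
  induction F using Finset.induction_on with
  | empty => exact ⟨N, le_rfl, hN1, hNn, fun x _ g hg => absurd hg (Finset.notMem_empty g)⟩
  | insert g F _ ih =>
    obtain ⟨M, hMN, hM1, hMn, hMF⟩ := ih
    by_cases hcomm : ∀ x ∈ M, ∀ a ∈ A, x * (g * a * g⁻¹) = g * a * g⁻¹ * x
    · refine ⟨M, hMN, hM1, hMn, fun x hx g' hg' => ?_⟩
      rcases Finset.mem_insert.1 hg' with rfl | hg'
      · exact hcomm x hx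
      · exact hMF x hx g' hg'
    · push Not at hcomm
      obtain ⟨x₀, hx₀, a₀, ha₀, hne⟩ := hcomm
      let S : Set G := {y | ∃ x ∈ M, ∃ a ∈ A, y = x * (g * a * g⁻¹) * x⁻¹ * (g * a * g⁻¹)⁻¹}
      have hS1 : ∀ y ∈ S, y ∈ M := by
        rintro y ⟨x, hx, a, ha, rfl⟩
        have h1 := hMn (g * a * g⁻¹) (conj_mem_K hK hAK ha) x⁻¹ (M.inv_mem hx)
        have h2 : x * (g * a * g⁻¹) * x⁻¹ * (g * a * g⁻¹)⁻¹
            = x * (g * a * g⁻¹ * x⁻¹ * (g * a * g⁻¹)⁻¹) := by group
        rw [h2]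
        exact M.mul_mem hx h1
      have hS2 : ∀ y ∈ S, ∃ a ∈ A, y = g * a * g⁻¹ := by
        rintro y ⟨x, hx, a, ha, rfl⟩
        obtain ⟨a', ha', h⟩ := conj_conj hK hnorm (g := g) (hNK (hMN hx)) ha
        refine ⟨a' * a⁻¹, A.mul_mem ha' (A.inv_mem ha), ?_⟩
        rw [h]
        group
      have hcl2 : ∀ y ∈ Subgroup.closure S, ∃ a ∈ A, y = g * a * g⁻¹ := by
        intro y hy
        induction hy using Subgroup.closure_induction with
        | mem y hy => exact hS2 y hy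
        | one => exact ⟨1, A.one_mem, by group⟩
        | mul y z _ _ ihy ihz =>
          obtain ⟨a, ha, rfl⟩ := ihy
          obtain ⟨b, hb, rfl⟩ := ihz
          exact ⟨a * b, A.mul_mem ha hb, by group⟩
        | inv y _ ih =>
          obtain ⟨a, ha, rfl⟩ := ih
          exact ⟨a⁻¹, A.inv_mem ha, by group⟩
      have hle : Subgroup.closure S ≤ M := (Subgroup.closure_le _).2 hS1
      refine ⟨Subgroup.closure S, le_trans hle hMN, ?_, ?_, ?_⟩
      · intro hbot
        have h1 : x₀ * (g * a₀ * g⁻¹) * x₀⁻¹ * (g * a₀ * g⁻¹)⁻¹ ∈ Subgroup.closure S :=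
          Subgroup.subset_closure ⟨x₀, hx₀, a₀, ha₀, rfl⟩
        rw [hbot, Subgroup.mem_bot, mul_inv_eq_one, mul_inv_eq_iff_eq_mul] at h1
        exact hne h1
      · intro k hk y hy
        induction hy using Subgroup.closure_induction with
        | mem y hy =>
          obtain ⟨x, hx, a, ha, rfl⟩ := hy
          obtain ⟨a', ha', h⟩ := conj_conj hK hnorm (g := g) hk ha
          refine Subgroup.subset_closure ⟨k * x * k⁻¹, hMn k hk x hx, a', ha', ?_⟩
          rw [← h]
          group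
        | one =>
          rw [mul_one, mul_inv_cancel]
          exact Subgroup.one_mem _
        | mul x y _ _ ihx ihy =>
          have : k * (x * y) * k⁻¹ = (k * x * k⁻¹) * (k * y * k⁻¹) := by group
          rw [this]
          exact Subgroup.mul_mem _ ihx ihy
        | inv x _ ih =>
          have : k * x⁻¹ * k⁻¹ = (k * x * k⁻¹)⁻¹ := by group
          rw [this]
          exact Subgroup.inv_mem _ ih
      · intro y hy g' hg' b hb
        rcases Finset.mem_insert.1 hg' with rfl | hg'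
        · obtain ⟨a, ha, rfl⟩ := hcl2 y hy
          have h1 : g' * a * g'⁻¹ * (g' * b * g'⁻¹) = g' * (a * b) * g'⁻¹ := by group
          have h2 : g' * b * g'⁻¹ * (g' * a * g'⁻¹) = g' * (b * a) * g'⁻¹ := by group
          rw [h1, h2, habel a ha b hb]
        · exact hMF y (hle hy) g' hg' b hb

include hK hAK hnorm in
/-- The common end of the proof: a set `D ≠ 1` in a product of finitely many conjugates of `A`, invariant under
`T`, where `K T = G`. -/
theorem finish (habel : ∀ x ∈ A, ∀ y ∈ A, x * y = y * x) (T : Subgroup G) (hT : K ⊔ T = ⊤)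
    (F : Finset G) (D : Set G) (hDF : ∀ x ∈ D, x ∈ Pf A F) (hDT : ∀ t ∈ T, ∀ x ∈ D, t * x * t⁻¹ ∈ D)
    (hD1 : ∃ x ∈ D, x ≠ 1) :
    ∃ N : Subgroup G, N.Normal ∧ N ≠ ⊥ ∧ ∀ x ∈ N, ∀ y ∈ N, x * y = y * x := by
  have hNP : Subgroup.normalClosure D ≤ Pf A F := by
    unfold Subgroup.normalClosure
    apply (Subgroup.closure_le _).2
    intro x hx
    obtain ⟨d, hd, hdx⟩ := Group.mem_conjugatesOfSet_iff.1 hx
    obtain ⟨g, hg⟩ := isConj_iff.1 hdx
    have hgtop : g ∈ K ⊔ T := by rw [hT]; exact Subgroup.mem_top g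
    obtain ⟨k, hk, t, ht, rfl⟩ := Subgroup.mem_sup_of_normal_left.1 hgtop
    have h1 : k * t * d * (k * t)⁻¹ = k * (t * d * t⁻¹) * k⁻¹ := by group
    rw [← hg, h1]
    exact Pf_normal hK hnorm F hk (hDF _ (hDT t ht d hd))
  have hNn : (Subgroup.normalClosure D).Normal := Subgroup.normalClosure_normal
  have hN1 : Subgroup.normalClosure D ≠ ⊥ := by
    obtain ⟨x, hx, hx1⟩ := hD1
    intro h
    have := Subgroup.subset_normalClosure hx
    rw [h] at this
    exact hx1 (Subgroup.mem_bot.1 this)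
  obtain ⟨M, hMN, hM1, -, hMF⟩ := exists_central hK hAK hnorm habel F (Subgroup.normalClosure D)
    (le_trans hNP (Pf_le hK hAK F)) hN1 (fun k _ x hx => hNn.conj_mem x hx k)
  -- `M` commutes with `Pf A F`
  have hMP : ∀ x ∈ M, ∀ y ∈ Pf A F, x * y = y * x := by
    intro x hx y hy
    unfold Pf at hy
    induction hy using Subgroup.closure_induction with
    | mem y hy =>
      obtain ⟨g, hg, a, ha, rfl⟩ := hy
      exact hMF x hx g hg a ha
    | one => rw [mul_one, one_mul]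
    | mul y z _ _ ihy ihz => rw [← mul_assoc, ihy, mul_assoc, ihz, mul_assoc]
    | inv y _ ih =>
      rw [mul_inv_eq_iff_eq_mul, mul_assoc, ih, ← mul_assoc, inv_mul_cancel, one_mul]
  let Z : Subgroup G := Subgroup.normalClosure D ⊓ Subgroup.centralizer (Subgroup.normalClosure D : Set G)
  have hZn : Z.Normal := by
    constructor
    intro n hn g
    have hn1 := (Subgroup.mem_inf.1 hn).1
    have hn2 := Subgroup.mem_centralizer_iff.1 (Subgroup.mem_inf.1 hn).2
    refine Subgroup.mem_inf.2 ⟨hNn.conj_mem n hn1 g, Subgroup.mem_centralizer_iff.2 ?_⟩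
    intro h hh
    have h1 := hn2 (g⁻¹ * h * g) (by
      have := hNn.conj_mem h hh g⁻¹
      rwa [inv_inv] at this)
    have h2 : h * (g * n * g⁻¹) = g * (g⁻¹ * h * g * n) * g⁻¹ := by group
    rw [h2, h1]
    group
  refine ⟨Z, hZn, ?_, ?_⟩
  · intro hbot
    apply hM1
    rw [eq_bot_iff, ← hbot]
    intro x hx
    refine Subgroup.mem_inf.2 ⟨hMN hx, Subgroup.mem_centralizer_iff.2 ?_⟩
    intro h hh
    exact (hMP x hx h (hNP hh)).symm
  · intro x hx y hy
    exact Subgroup.mem_centralizer_iff.1 (Subgroup.mem_inf.1 hy).2 x (Subgroup.mem_inf.1 hx).1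

end

/-- Let `G` satisfy the normalizer condition, `K` a normal subgroup of `G`, `A ≠ 1` an abelian normal subgroup of `K`
and `T` a subgroup of `G` with `K T = G` such that `T ∩ A^G` is finitely generated. Then `G` has a
nontrivial abelian normal subgroup. -/
theorem result {G : Type*} [Group G]
    (hcond : ∀ H : Subgroup G, H < ⊤ → H < Subgroup.normalizer (H : Set G))
    (K : Subgroup G) (hK : K.Normal) (A : Subgroup G) (hAK : A ≤ K) (hA : A ≠ ⊥)
    (habel : ∀ x ∈ A, ∀ y ∈ A, x * y = y * x) (hnorm : ∀ k ∈ K, ∀ a ∈ A, k * a * k⁻¹ ∈ A)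
    (T : Subgroup G) (hT : K ⊔ T = ⊤) (hfg : (T ⊓ Subgroup.normalClosure (A : Set G)).FG) :
    ∃ N : Subgroup G, N.Normal ∧ N ≠ ⊥ ∧ ∀ x ∈ N, ∀ y ∈ N, x * y = y * x := by
  classical
  have hBn : (Subgroup.normalClosure (A : Set G)).Normal := Subgroup.normalClosure_normal
  by_cases hTB : T ⊓ Subgroup.normalClosure (A : Set G) = ⊥
  · have hB1 : Subgroup.normalClosure (A : Set G) ≠ ⊥ := by
      intro h
      apply hA
      rw [eq_bot_iff, ← h]
      exact fun x hx => Subgroup.subset_normalClosure hx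
    obtain ⟨b, hb, hb1, hbT⟩ := exists_centralised hcond _ T hBn hB1 hTB
    obtain ⟨F, hF⟩ := mem_Pf_of_mem_normalClosure A hb
    refine finish hK hAK hnorm habel T hT F {b} ?_ ?_ ⟨b, rfl, hb1⟩
    · rintro x rfl
      exact hF
    · rintro t ht x rfl
      exact hbT t ht
  · obtain ⟨S, hS⟩ := hfg
    obtain ⟨F, hF⟩ := subset_Pf A S (fun x hx => by
      have : x ∈ T ⊓ Subgroup.normalClosure (A : Set G) := by
        rw [← hS]
        exact Subgroup.subset_closure hx
      exact this.2)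
    refine finish hK hAK hnorm habel T hT F ((T ⊓ Subgroup.normalClosure (A : Set G) : Subgroup G) : Set G)
      ?_ ?_ ?_
    · intro x hx
      have h1 : T ⊓ Subgroup.normalClosure (A : Set G) ≤ Pf A F := by
        rw [← hS]
        exact (Subgroup.closure_le _).2 fun y hy => hF y hy
      exact h1 hx
    · rintro t ht x ⟨hx1, hx2⟩
      exact ⟨T.mul_mem (T.mul_mem ht hx1) (T.inv_mem ht), hBn.conj_mem x hx2 t⟩
    · obtain ⟨x, hx⟩ := Subgroup.ne_bot_iff_exists_ne_one.1 hTB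
      exact ⟨x, x.2, fun h => hx (Subtype.ext h)⟩

end Pool.Agent.Results.MP_1f4983_al.Closure
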