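import Pool.Agent.Lib.MP_1f4983_al.Factor

/-!
# Central elements in factorised groups with the normalizer condition
-/

set_option autoImplicit false

namespace Pool.Agent.Results.MP_1f4983_al.CoreFreeFactor

open Pool.Agent.Lib.MP_1f4983_al.Factor

/-- Let `G` satisfy the normalizer condition, let `A`, `B` be subgroups with `G = A B` and let `M ≠ 1` be a normal
subgroup of `G` such that `M ∩ B` lies in the hypercentre of `B` and every normal subgroup of `G` contained in `M ∩ A`
(for instance only the trivial one) lies in the hypercentre of `A`. Then `M` contains a central element `z ≠ 1` of `G`. -/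
theorem result {G : Type*} [Group G]
    (hcond : ∀ H : Subgroup G, H < ⊤ → H < Subgroup.normalizer (H : Set G))
    (A B M : Subgroup G) (hAB : ∀ g : G, ∃ a ∈ A, ∃ b ∈ B, g = a * b) (hM : M.Normal) (hM1 : M ≠ ⊥)
    (hB : InHypercentre (M ⊓ B) B)
    (hA : ∀ K : Subgroup G, K.Normal → K ≤ M ⊓ A → InHypercentre K A) :
    ∃ z ∈ M, z ≠ 1 ∧ ∀ g : G, g * z = z * g :=
  normalZ hcond A B M hAB hM hM1 hB hA

end Pool.Agent.Results.MP_1f4983_al.CoreFreeFactor
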