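import Pool.Agent.Lib.MP_1f4983_al.Factor

/-!
# Products of finitely many pairwise permutable hypercentral subgroups
-/

set_option autoImplicit false

namespace Pool.Agent.Results.MP_1f4983_al.Products

open Pool.Agent.Lib.MP_1f4983_al.Factor

/-- Let `G` satisfy the normalizer condition and be generated by finitely many pairwise permutable subgroups
`A 0, …, A n`, where `A 1, …, A n` are hypercentral. If `A 0` is hyperabelian, `G` is hyperabelian; if `A 0` is
hypercentral, `G` is hypercentral. -/
theorem result {G : Type*} [Group G]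
    (hcond : ∀ H : Subgroup G, H < ⊤ → H < Subgroup.normalizer (H : Set G))
    (n : ℕ) (A : Fin (n + 1) → Subgroup G) (hperm : ∀ i j, Permutes (A i) (A j))
    (hi : ∀ i, i ≠ 0 → Hypercentral (A i)) (htop : ⨆ i, A i = ⊤) :
    (Hyperabelian (A 0) → Hyperabelian G) ∧ (Hypercentral (A 0) → Hypercentral G) := by
  have heq : (A 0 ⊔ ⨆ i ∈ Finset.univ.erase (0 : Fin (n + 1)), A i : Subgroup G) = ⊤ := by
    rw [eq_top_iff, ← htop]
    refine iSup_le fun i => ?_
    by_cases h : i = 0
    · subst h
      exact le_sup_left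
    · exact le_trans (le_iSup₂_of_le i (Finset.mem_erase.2 ⟨h, Finset.mem_univ i⟩) le_rfl) le_sup_right
  constructor
  · intro h0
    obtain ⟨h1, -⟩ := many hcond 0 A hperm h0 (Finset.univ.erase 0)
      (fun i hi' => hi i (Finset.ne_of_mem_erase hi'))
    rw [heq] at h1
    exact h1.congr Subgroup.topEquiv
  · intro h0
    obtain ⟨h1, -⟩ := manyZ hcond 0 A hperm h0 (Finset.univ.erase 0)
      (fun i hi' => hi i (Finset.ne_of_mem_erase hi'))
    rw [heq] at h1
    exact h1.congr Subgroup.topEquiv

end Pool.Agent.Results.MP_1f4983_al.Products
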